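import Mathlib

set_option autoImplicit false

namespace Pool.Agent.Results.MP_d0ed5b_an.Counter

instance : Fact ((1 : ENNReal) ≤ 4) := ⟨by norm_num⟩

/-- the real plane with the `ℓ_4` norm -/
abbrev X := PiLp 4 fun _ : Fin 2 => ℝ

theorem nrm (x : X) : ‖x‖ ^ 4 = x 0 ^ 4 + x 1 ^ 4 := by
  rw [PiLp.norm_eq_of_nat (p := 4) 4 rfl, Fin.sum_univ_two, one_div,
    Real.rpow_inv_natCast_pow (by positivity) (by norm_num)]
  simp only [Real.norm_eq_abs]
  rw [Even.pow_abs (by decide), Even.pow_abs (by decide)]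

theorem supp (x : X) (l : X →L[ℝ] ℝ) (hx : ‖x‖ = 1) (hl : ‖l‖ = 1) (h : l x = 1) (y : X) :
    l y = x 0 ^ 3 * y 0 + x 1 ^ 3 * y 1 := by
  have e := nrm x
  rw [hx] at e
  have m : IsLocalMin (fun s : ℝ => (x 0 + s * y 0) ^ 4 + (x 1 + s * y 1) ^ 4 - (1 + s * l y) ^ 4)
      0 := by
    refine Filter.Eventually.of_forall fun s => ?_
    have h1 := l.le_opNorm (x + s • y)
    rw [hl, one_mul, map_add, map_smul, h, smul_eq_mul, Real.norm_eq_abs] at h1
    have h2 := pow_le_pow_left₀ (abs_nonneg _) h1 4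
    rw [nrm, Even.pow_abs (by decide)] at h2
    simp only [PiLp.add_apply, PiLp.smul_apply, smul_eq_mul] at h2
    simp only [zero_mul, add_zero]
    linarith
  have d : ∀ a b : ℝ, HasDerivAt (fun s : ℝ => (a + s * b) ^ 4) (4 * a ^ 3 * b) 0 := fun a b =>
    ((((hasDerivAt_id (0 : ℝ)).mul_const b).const_add a).fun_pow 4).congr_deriv (by simp)
  have := m.hasDerivAt_eq_zero (((d _ _).add (d _ _)).sub (d _ _))
  linarith

noncomputable def f : X →L[ℝ] ℝ := (12 : ℝ) • PiLp.proj 4 _ 0 + PiLp.proj 4 _ 1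
noncomputable def y : X := WithLp.toLp 4 ![-1, 4]
noncomputable def T : X →L[ℝ] X := f.smulRight y

/-- rank one -/
def RankOne {Y : Type} [NormedAddCommGroup Y] [NormedSpace ℝ Y] (S : Y →L[ℝ] Y) : Prop :=
  Module.finrank ℝ (LinearMap.range (S : Y →ₗ[ℝ] Y)) = 1

/-- numerical radius at most `c` -/
def RadiusLe {Y : Type} [NormedAddCommGroup Y] [NormedSpace ℝ Y] (S : Y →L[ℝ] Y) (c : ℝ) : Prop :=
  ∀ (x : Y) (l : Y →L[ℝ] ℝ), ‖x‖ = 1 → ‖l‖ = 1 → l x = 1 → |l (S x)| ≤ c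

/-- the rank-one numerical index is below `k`, with a witness -/
def IndexLt (Y : Type) [NormedAddCommGroup Y] [NormedSpace ℝ Y] (k : ℝ) : Prop :=
  ∃ S : Y →L[ℝ] Y, RankOne S ∧ ‖S‖ = 1 ∧ ∃ c : ℝ, c < k ∧ RadiusLe S c

theorem result : IndexLt X (1 / ((4 : ℝ) ^ (1 / 4 : ℝ) * (4 / 3 : ℝ) ^ (3 / 4 : ℝ))) := by
  have tx : ∀ x, T x = (12 * x 0 + x 1) • y := fun x => rfl
  let x0 : X := WithLp.toLp 4 ![2, 1]
  have h1 : 25 ^ 4 * 257 ≤ ‖T‖ ^ 4 * 17 := by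
    have := pow_le_pow_left₀ (norm_nonneg _) (T.le_opNorm x0) 4
    rw [mul_pow, nrm, nrm, tx] at this
    simp [x0, y] at this
    linarith
  have p : 0 < ‖T‖ := by
    rcases (norm_nonneg T).eq_or_lt with e | e
    · rw [← e] at h1; norm_num at h1
    · exact e
  have y0 : y ≠ 0 := fun e => by simpa [y] using congrArg (fun z : X => z 0) e
  refine ⟨‖T‖⁻¹ • T, ?_, by rw [norm_smul, norm_inv, norm_norm, inv_mul_cancel₀ p.ne'],
    28 / ‖T‖, ?_, fun x l hx hl h => ?_⟩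
  · suffices LinearMap.range ((‖T‖⁻¹ • T : X →L[ℝ] X) : X →ₗ[ℝ] X) = Submodule.span ℝ {y} by
      rw [RankOne, this, finrank_span_singleton y0]
    ext z
    rw [LinearMap.mem_range, Submodule.mem_span_singleton]
    constructor
    · rintro ⟨x, rfl⟩
      exact ⟨‖T‖⁻¹ * (12 * x 0 + x 1), by rw [mul_smul]; rfl⟩
    · rintro ⟨a, rfl⟩
      refine ⟨WithLp.toLp 4 ![0, ‖T‖ * a], ?_⟩
      show ‖T‖⁻¹ • T _ = _
      rw [tx, smul_smul]
      simp [p.ne']
  · refine lt_of_pow_lt_pow_left₀ 4 (by positivity) ?_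
    rw [div_pow, div_pow, mul_pow, ← Real.rpow_natCast (4 ^ (1 / 4 : ℝ)), ← Real.rpow_natCast (_ ^ (3 / 4 : ℝ)),
      ← Real.rpow_mul (by norm_num), ← Real.rpow_mul (by norm_num), div_lt_iff₀ (by positivity)]
    norm_num
    linarith
  · have e := nrm x
    rw [hx] at e
    show |l (‖T‖⁻¹ • T x)| ≤ _
    rw [map_smul, tx, map_smul, supp x l hx hl h, smul_eq_mul, smul_eq_mul, abs_mul,
      abs_of_pos (inv_pos.2 p), div_eq_inv_mul]
    refine mul_le_mul_of_nonneg_left ?_ (inv_pos.2 p).le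
    have a0 : y 0 = -1 := rfl
    have a1 : y 1 = 4 := rfl
    rw [a0, a1, abs_le]
    generalize x 0 = s at *
    generalize x 1 = u at *
    constructor
    · nlinarith [sq_nonneg (s ^ 2 - s * u / 32 - 5 / 6 * u ^ 2), sq_nonneg (s * u + 0.885 * u ^ 2),
        sq_nonneg (u ^ 2)]
    · nlinarith [sq_nonneg (s ^ 2 + s * u / 80 - 0.45 * u ^ 2), sq_nonneg (s * u - 0.66 * u ^ 2),
        sq_nonneg (u ^ 2), sq_nonneg (s * u)]

end Pool.Agent.Results.MP_d0ed5b_an.Counter
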